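import Pool.Agent.Helper94_LeoC.Mst

/-!
Module LWT of squad LEOC: the vectors divisible by a prime.
-/

set_option autoImplicit false

open NumberField NumberField.InfinitePlace NumberField.mixedEmbedding IsDedekindDomain Module
  MeasureTheory
open Pool.Agent.LeoK Pool.Agent.LeoG

open scoped Classical

namespace Pool.Agent.LeoC.H94

section

variable {k : Type} [Field k] [NumberField k]

lemma mm_ne_zero (_hE : EvsStmt) (N : Set {w : InfinitePlace k // IsReal w}) (δ : ℝ)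
    (g : Q4 (𝓞 k)) (hg : Lrg N δ g) : mm g ≠ 0 := by
  intro h0
  obtain ⟨h1, h2⟩ := hg.sgn
  rw [h0] at h1 h2
  have h3 : mixedEmbedding k (((0 : 𝓞 k) : k)) = 0 := by
    have h4 : ((0 : 𝓞 k) : k) = 0 := map_zero (algebraMap (𝓞 k) k)
    rw [h4, map_zero]
  rw [h3] at h1 h2
  obtain ⟨v⟩ : Nonempty (InfinitePlace k) := inferInstance
  rcases isReal_or_isComplex v with hv | hv
  · by_cases h4 : (⟨v, hv⟩ : {w : InfinitePlace k // IsReal w}) ∈ N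
    · have := (h1 ⟨v, hv⟩).1 h4
      simp at this
    · have := (h1 ⟨v, hv⟩).2 h4
      simp at this
  · exact h2 ⟨v, hv⟩ rfl

lemma wz_nonneg (w : WS k) (v : InfinitePlace k) : 0 ≤ wz w v := by
  unfold wz
  split_ifs with h <;> positivity

lemma wz_smul (t : ℝ) (w : WS k) : wz (t • w) = t ^ 2 • wz w := by
  funext v
  rw [Pi.smul_apply, smul_eq_mul]
  unfold wz
  split_ifs with h
  · rw [Prod.smul_fst, Pi.smul_apply, _root_.norm_smul, mul_pow, Real.norm_eq_abs, sq_abs]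
  · rw [Prod.smul_snd, Pi.smul_apply, Prod.smul_fst, Prod.smul_snd, _root_.norm_smul, _root_.norm_smul, mul_pow,
      mul_pow, Real.norm_eq_abs, sq_abs, mul_add]

lemma wz_le_norm (w : WS k) (v : InfinitePlace k) : wz w v ≤ 2 * ‖w‖ ^ 2 := by
  unfold wz
  split_ifs with h
  · have h1 : ‖w.1 ⟨v, h⟩‖ ≤ ‖w‖ := (norm_le_pi_norm w.1 _).trans (norm_fst_le w)
    have h2 := pow_le_pow_left₀ (norm_nonneg _) h1 2
    nlinarith [sq_nonneg ‖w‖]
  · have h0 : ‖w.2 ⟨v, not_isReal_iff_isComplex.mp h⟩‖ ≤ ‖w‖ :=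
      (norm_le_pi_norm w.2 _).trans (norm_snd_le w)
    have h1 : ‖(w.2 ⟨v, not_isReal_iff_isComplex.mp h⟩).1‖ ≤ ‖w‖ := (norm_fst_le _).trans h0
    have h2 : ‖(w.2 ⟨v, not_isReal_iff_isComplex.mp h⟩).2‖ ≤ ‖w‖ := (norm_snd_le _).trans h0
    have h3 := pow_le_pow_left₀ (norm_nonneg _) h1 2
    have h4 := pow_le_pow_left₀ (norm_nonneg _) h2 2
    linarith

lemma norm_le_of_wz (w : WS k) (R : ℝ) (hR : 0 ≤ R) (h : ∀ v, wz w v ≤ R ^ 2) : ‖w‖ ≤ R := by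
  rw [Prod.norm_def]
  refine max_le ((pi_norm_le_iff_of_nonneg hR).mpr fun v => ?_)
    ((pi_norm_le_iff_of_nonneg hR).mpr fun v => ?_)
  · have h1 := h v.1
    unfold wz at h1
    rw [dif_pos v.2] at h1
    exact le_of_sq_le_sq h1 hR
  · have h1 := h v.1
    unfold wz at h1
    rw [dif_neg (not_isReal_iff_isComplex.mpr v.2)] at h1
    rw [Prod.norm_def]
    refine max_le ?_ ?_
    · refine le_of_sq_le_sq ?_ hR
      exact le_trans (by
        have := sq_nonneg ‖(w.2 v).2‖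
        simp only [Subtype.coe_eta]
        linarith) h1
    · refine le_of_sq_le_sq ?_ hR
      exact le_trans (by
        have := sq_nonneg ‖(w.2 v).1‖
        simp only [Subtype.coe_eta]
        linarith) h1

/-- the vector of the pair `(X, Y)` -/
noncomputable def zHom (L : (MS k × MS k) ≃L[ℝ] WS k) : 𝓞 k × 𝓞 k →+ WS k where
  toFun p := L (mixedEmbedding k (p.1 : k), mixedEmbedding k (p.2 : k))
  map_zero' := by
    have h1 : ((((0 : 𝓞 k × 𝓞 k).1 : 𝓞 k)) : k) = 0 := map_zero (algebraMap (𝓞 k) k)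
    have h2 : ((((0 : 𝓞 k × 𝓞 k).2 : 𝓞 k)) : k) = 0 := map_zero (algebraMap (𝓞 k) k)
    rw [h1, h2, map_zero]
    exact map_zero L
  map_add' x y := by
    have h1 : ((((x + y).1 : 𝓞 k)) : k) = (x.1 : k) + (y.1 : k) :=
      map_add (algebraMap (𝓞 k) k) _ _
    have h2 : ((((x + y).2 : 𝓞 k)) : k) = (x.2 : k) + (y.2 : k) :=
      map_add (algebraMap (𝓞 k) k) _ _
    rw [h1, h2, map_add (mixedEmbedding k) (x.1 : k), map_add (mixedEmbedding k) (x.2 : k)]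
    exact map_add L (mixedEmbedding k (x.1 : k), mixedEmbedding k (x.2 : k))
      (mixedEmbedding k (y.1 : k), mixedEmbedding k (y.2 : k))

lemma zHom_apply (L : (MS k × MS k) ≃L[ℝ] WS k) (p : 𝓞 k × 𝓞 k) :
    zHom L p = L (mixedEmbedding k (p.1 : k), mixedEmbedding k (p.2 : k)) := rfl

/-- the vectors with bounded norm -/
theorem lwt1 (hMap : MapStmt) (hC : ConStmt) (hP : PckStmt) (hE : EvsStmt) (hH : HkaStmt)
    (Φ : CFrame k) (N : Set {w : InfinitePlace k // IsReal w}) (δ : ℝ) (hδ : 0 < δ) :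
    ∃ A : ℝ, 0 < A ∧ ∀ g : Q4 (𝓞 k), Lrg N δ g → ∀ T : ℝ, 0 < T →
    {p : 𝓞 k × 𝓞 k | hk g p.1 p.2 ∈ Φ.F ∧ nr (hk g p.1 p.2) ≤ T}.Finite ∧
    ({p : 𝓞 k × 𝓞 k | hk g p.1 p.2 ∈ Φ.F ∧ nr (hk g p.1 p.2) ≤ T}.ncard : ℝ) ≤ A * T := by
  obtain ⟨-, -, -, -, hnr, hbd⟩ := hC k Φ
  have hn : 0 < finrank ℚ k := finrank_pos
  let D₁ : Set (WS k) := {w | wz w ∈ Φ.F ∩ {x | nr x ≤ 1}}
  have hD₁ : Bornology.IsBounded D₁ := by
    obtain ⟨R, hR⟩ := isBounded_iff_forall_norm_le.mp (hbd 1 one_pos).1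
    refine isBounded_iff_forall_norm_le.mpr ⟨Real.sqrt R, fun w hw => ?_⟩
    have h1 := hR _ hw
    have hR0 : 0 ≤ R := (norm_nonneg _).trans h1
    refine norm_le_of_wz w _ (Real.sqrt_nonneg _) fun v => ?_
    rw [Real.sq_sqrt hR0]
    have h2 := norm_le_pi_norm (wz w) v
    rw [Real.norm_of_nonneg (wz_nonneg w v)] at h2
    exact h2.trans h1
  have hm1 : 0 < min 1 δ := lt_min one_pos hδ
  have hρ : 0 < min 1 δ / 2 := by positivity
  obtain ⟨A, hA, hpck⟩ := hP (WS k) D₁ hD₁ (min 1 δ / 2) hρ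
  have key : ∀ g : Q4 (𝓞 k), Lrg N δ g → ∀ T : ℝ, 1 ≤ T →
      {p : 𝓞 k × 𝓞 k | hk g p.1 p.2 ∈ Φ.F ∧ nr (hk g p.1 p.2) ≤ T}.Finite ∧
      ({p : 𝓞 k × 𝓞 k | hk g p.1 p.2 ∈ Φ.F ∧ nr (hk g p.1 p.2) ≤ T}.ncard : ℝ) ≤ A * T := by
    intro g hg T hT
    obtain ⟨L, -, hL⟩ := hMap k N g hg.sgn
    have hz : ∀ p : 𝓞 k × 𝓞 k, wz (zHom L p) = hk g p.1 p.2 := fun p => (hL p.1 p.2).1
    have hT0 : 0 < T := by linarith
    set t : ℝ := T ^ (1 / ((2 * finrank ℚ k : ℕ) : ℝ)) with ht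
    have ht1 : 1 ≤ t := Real.one_le_rpow hT (by positivity)
    have h2n : (((2 * finrank ℚ k : ℕ)) : ℝ) ≠ 0 := by
      exact_mod_cast (by omega : 2 * finrank ℚ k ≠ 0)
    have htn : t ^ (2 * finrank ℚ k) = T := by
      rw [ht, ← Real.rpow_natCast, ← Real.rpow_mul hT0.le, one_div, inv_mul_cancel₀ h2n,
        Real.rpow_one]
    have ht0 : 0 < t := by linarith
    have hprod : ∀ p : 𝓞 k × 𝓞 k, p ≠ 0 → δ ≤ nr (wz (zHom L p)) := by
      intro p hp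
      have h1 : p.1 ≠ 0 ∨ p.2 ≠ 0 := by
        by_contra hno
        push Not at hno
        exact hp (Prod.ext hno.1 hno.2)
      have h2 := hg.short p.1 p.2 h1
      rw [hz]
      exact h2
    obtain ⟨hfin, hle⟩ := hpck t ht1 (zHom L).range (by
      rintro y ⟨p, rfl⟩ hy
      have hp : p ≠ 0 := by
        rintro rfl
        exact hy (map_zero _)
      have h1 := (hprod p hp).trans
        (nr_le_pow _ (wz_nonneg _) (2 * ‖zHom L p‖ ^ 2) (wz_le_norm _))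
      by_contra hlt
      push Not at hlt
      have h0 := norm_nonneg (zHom L p)
      have hm2 : min 1 δ ≤ 1 := min_le_left _ _
      have hm3 : min 1 δ ≤ δ := min_le_right _ _
      have h2 : 2 * ‖zHom L p‖ ^ 2 < min 1 δ := by
        have h3 : ‖zHom L p‖ ^ 2 ≤ (min 1 δ / 2) ^ 2 := pow_le_pow_left₀ h0 hlt.le 2
        nlinarith
      have h4 : (2 * ‖zHom L p‖ ^ 2) ^ finrank ℚ k ≤ (2 * ‖zHom L p‖ ^ 2) ^ 1 :=
        pow_le_pow_of_le_one (by positivity) (by linarith) (by omega)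
      rw [pow_one] at h4
      linarith)
    have hmap : ∀ p ∈ {p : 𝓞 k × 𝓞 k | hk g p.1 p.2 ∈ Φ.F ∧ nr (hk g p.1 p.2) ≤ T},
        zHom L p ∈ {y : WS k | y ∈ (zHom L).range ∧ t⁻¹ • y ∈ D₁} := by
      rintro p ⟨hp, hp'⟩
      refine ⟨⟨p, rfl⟩, ?_⟩
      change wz (t⁻¹ • zHom L p) ∈ Φ.F ∩ {x | nr x ≤ 1}
      rw [wz_smul, hz]
      refine ⟨Φ.scal _ hp _ (by positivity), ?_⟩
      change nr (t⁻¹ ^ 2 • hk g p.1 p.2) ≤ 1
      rw [hnr, ← pow_mul, inv_pow, htn, inv_mul_le_iff₀ hT0, mul_one]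
      exact hp'
    have hinj : Set.InjOn (zHom L)
        {p : 𝓞 k × 𝓞 k | hk g p.1 p.2 ∈ Φ.F ∧ nr (hk g p.1 p.2) ≤ T} := by
      intro x _ y _ hxy
      rw [zHom_apply, zHom_apply] at hxy
      have h1 := L.injective hxy
      rw [Prod.mk.injEq] at h1
      exact Prod.ext (RingOfIntegers.ext (mixedEmbedding_injective k h1.1))
        (RingOfIntegers.ext (mixedEmbedding_injective k h1.2))
    refine ⟨Set.Finite.of_injOn hmap hinj hfin, ?_⟩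
    have h1 := Set.ncard_le_ncard_of_injOn _ hmap hinj hfin
    have h2 : finrank ℝ (WS k) = 2 * finrank ℚ k := by
      rw [← L.toLinearEquiv.finrank_eq, Module.finrank_prod, mixedEmbedding.finrank]
      ring
    rw [h2, htn] at hle
    exact le_trans (by exact_mod_cast h1) hle
  refine ⟨A * (1 + 1 / δ), by positivity, fun g hg T hT => ?_⟩
  rcases lt_or_ge T 1 with hT1 | hT1
  · have hsub : {p : 𝓞 k × 𝓞 k | hk g p.1 p.2 ∈ Φ.F ∧ nr (hk g p.1 p.2) ≤ T} ⊆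
        {p : 𝓞 k × 𝓞 k | hk g p.1 p.2 ∈ Φ.F ∧ nr (hk g p.1 p.2) ≤ 1} := fun p hp =>
      ⟨hp.1, hp.2.trans hT1.le⟩
    obtain ⟨hfin, hle⟩ := key g hg 1 le_rfl
    refine ⟨hfin.subset hsub, ?_⟩
    rcases lt_or_ge T δ with hTδ | hTδ
    · have hemp : {p : 𝓞 k × 𝓞 k | hk g p.1 p.2 ∈ Φ.F ∧ nr (hk g p.1 p.2) ≤ T} = ∅ := by
        rw [Set.eq_empty_iff_forall_notMem]
        rintro p ⟨hp, hp'⟩
        have hpos := Φ.pos _ hp
        have h1 : p.1 ≠ 0 ∨ p.2 ≠ 0 := by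
          by_contra hno
          push Not at hno
          have h2 := hpos (Classical.arbitrary _)
          have h3 := (hH k g (mm_ne_zero hE N δ g hg)).2.2.1 0 0 0 (Classical.arbitrary _)
          rw [hno.1, hno.2] at h2
          have h4 : ((0 : 𝓞 k) : k) = 0 := map_zero (algebraMap (𝓞 k) k)
          rw [mul_zero, h4, map_zero, zero_pow two_ne_zero, zero_mul] at h3
          rw [h3] at h2
          exact lt_irrefl _ h2
        have h2 := hg.short p.1 p.2 h1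
        linarith
      rw [hemp, Set.ncard_empty]
      push_cast
      positivity
    · have h1 := Set.ncard_le_ncard hsub hfin
      have h2 : ({p : 𝓞 k × 𝓞 k | hk g p.1 p.2 ∈ Φ.F ∧ nr (hk g p.1 p.2) ≤ T}.ncard : ℝ) ≤
          A * 1 := le_trans (by exact_mod_cast h1) hle
      have h3 : 1 ≤ T / δ := by rwa [one_le_div hδ]
      calc _ ≤ A * 1 := h2
        _ ≤ A * (T / δ) := mul_le_mul_of_nonneg_left h3 hA.le
        _ ≤ A * (T + T / δ) := mul_le_mul_of_nonneg_left (by linarith) hA.le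
        _ = _ := by ring
  · obtain ⟨hfin, hle⟩ := key g hg T hT1
    refine ⟨hfin, hle.trans ?_⟩
    have : 0 ≤ A * (1 / δ) * T := by positivity
    nlinarith

theorem lwt (hMap : MapStmt) (hC : ConStmt) (hR : Pool.Agent.LeoC.RepStmt) (hP : PckStmt)
    (hE : EvsStmt) (hH : HkaStmt) : LwtStmt := by
  intro k _ _ Φ N δ hδ
  obtain ⟨A, hA, hlwt⟩ := lwt1 hMap hC hP hE hH Φ N δ hδ
  obtain ⟨N₀, hN₀, hrep⟩ := hR k
  have hN1 : (1 : ℝ) ≤ N₀ := by exact_mod_cast hN₀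
  refine ⟨A * (N₀ : ℝ) ^ 2, by positivity, fun g hg T hT => ⟨(hlwt g hg T hT).1, ?_⟩⟩
  intro q
  obtain ⟨-, hpos0, hsc, -, -, -⟩ := hH k g (mm_ne_zero hE N δ g hg)
  obtain ⟨r, α, β, hα, hβ, -, hspan, hnorm, -⟩ := hrep q.asIdeal q.ne_bot
  have hnp := np_pos q
  have hpα : 0 < nn α := nn_pos hE α hα
  have hpβ : 0 < nn β := nn_pos hE β hβ
  have hvα : ∀ v : InfinitePlace k, 0 < v (α : k) := fun v =>
    v.pos_iff.mpr (by exact_mod_cast hα)
  have hvβ : ∀ v : InfinitePlace k, 0 < v (β : k) := fun v =>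
    v.pos_iff.mpr (by exact_mod_cast hβ)
  set T' : ℝ := ((N₀ : ℝ) / np q) ^ 2 * T with hT'
  have hT'0 : 0 < T' := by
    have : (0 : ℝ) < N₀ := by linarith
    positivity
  let S : Set (𝓞 k × 𝓞 k) := {p | p.1 ∈ q.asIdeal ∧ p.2 ∈ q.asIdeal ∧ hk g p.1 p.2 ∈ Φ.F ∧
    nr (hk g p.1 p.2) ≤ T}
  choose! u hu using Φ.exi
  -- the map
  have hex : ∀ p : 𝓞 k × 𝓞 k, p ∈ S → ∃ (X' Y' : 𝓞 k),
      β * p.1 = α * X' ∧ β * p.2 = α * Y' := by
    rintro p ⟨h1, h2, -, -⟩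
    obtain ⟨X', hX'⟩ := dvd_of_span q.asIdeal r α β hspan p.1 h1
    obtain ⟨Y', hY'⟩ := dvd_of_span q.asIdeal r α β hspan p.2 h2
    exact ⟨X', Y', hX', hY'⟩
  choose! X' Y' hX' hY' using hex
  let h' : 𝓞 k × 𝓞 k → PS k := fun p => hk g (X' p) (Y' p)
  have hh' : ∀ p ∈ S, ∀ v : InfinitePlace k,
      v (β : k) ^ 2 * hk g p.1 p.2 v = v (α : k) ^ 2 * h' p v := by
    intro p hp v
    rw [← hsc, hX' p hp, hY' p hp, hsc]
  have hpos' : ∀ p ∈ S, ∀ v, 0 < h' p v := by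
    intro p hp v
    have h2 := Φ.pos _ hp.2.2.1 v
    have h3 : 0 < v (β : k) ^ 2 * hk g p.1 p.2 v := mul_pos (pow_pos (hvβ v) 2) h2
    rw [hh' p hp v] at h3
    exact (mul_pos_iff_of_pos_left (pow_pos (hvα v) 2)).mp h3
  let f : 𝓞 k × 𝓞 k → 𝓞 k × 𝓞 k := fun p =>
    ((u (h' p) : 𝓞 k) * X' p, (u (h' p) : 𝓞 k) * Y' p)
  have hfh : ∀ p : 𝓞 k × 𝓞 k, hk g (f p).1 (f p).2 =
      fun v => v ((u (h' p) : 𝓞 k) : k) ^ 2 * h' p v := by
    intro p
    funext v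
    exact hsc _ _ _ v
  have hnrs : ∀ (c : 𝓞 k) (x : PS k), nr (fun v => v (c : k) ^ 2 * x v) = nn c ^ 2 * nr x := by
    intro c x
    rw [nn_eq hE]
    unfold nr
    rw [← Finset.prod_pow, ← Finset.prod_mul_distrib]
    refine Finset.prod_congr rfl fun v _ => ?_
    ring
  have hmap : ∀ p ∈ S, f p ∈ {p : 𝓞 k × 𝓞 k | hk g p.1 p.2 ∈ Φ.F ∧
      nr (hk g p.1 p.2) ≤ T'} := by
    intro p hp
    refine ⟨?_, ?_⟩
    · rw [hfh]
      exact hu _ (hpos' p hp)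
    have h6 : nn α ^ 2 * nr (hk g (f p).1 (f p).2) = nn β ^ 2 * nr (hk g p.1 p.2) := by
      rw [hfh, hnrs, nn_unit hE, one_pow, one_mul, ← hnrs, ← hnrs]
      congr 1
      funext v
      exact (hh' p hp v).symm
    have h10 : np q * nn β ≤ N₀ * nn α := hnorm
    have h11 : (np q * nn β) ^ 2 ≤ (N₀ * nn α) ^ 2 :=
      pow_le_pow_left₀ (by positivity) h10 2
    set a := nn α with ha
    set b := nn β with hb
    set x := nr (hk g (f p).1 (f p).2) with hx'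
    have h13 : a ^ 2 * x ≤ b ^ 2 * T := by
      rw [h6]
      exact mul_le_mul_of_nonneg_left hp.2.2.2 (by positivity)
    have h14 : np q ^ 2 * (a ^ 2 * x) ≤ (N₀ : ℝ) ^ 2 * a ^ 2 * T := by
      calc np q ^ 2 * (a ^ 2 * x) ≤ np q ^ 2 * (b ^ 2 * T) :=
            mul_le_mul_of_nonneg_left h13 (by positivity)
        _ = (np q * b) ^ 2 * T := by ring
        _ ≤ (N₀ * a) ^ 2 * T := mul_le_mul_of_nonneg_right h11 hT.le
        _ = _ := by ring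
    have h15 : a ^ 2 * (np q ^ 2 * x) ≤ a ^ 2 * ((N₀ : ℝ) ^ 2 * T) := by linarith
    have h16 : np q ^ 2 * x ≤ (N₀ : ℝ) ^ 2 * T := le_of_mul_le_mul_left h15 (by positivity)
    have h17 : x ≤ T' := by
      rw [hT', div_pow, div_mul_eq_mul_div, le_div_iff₀ (by positivity)]
      linarith
    exact h17
  have hinj : Set.InjOn f S := by
    intro p hp p' hp' hpp
    obtain ⟨η₁, hη₁⟩ : ∃ η, η = u (h' p) := ⟨_, rfl⟩
    obtain ⟨η₂, hη₂⟩ : ∃ η, η = u (h' p') := ⟨_, rfl⟩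
    have e1 : (η₁ : 𝓞 k) * X' p = (η₂ : 𝓞 k) * X' p' := by
      rw [hη₁, hη₂]
      exact congrArg Prod.fst hpp
    have e2 : (η₁ : 𝓞 k) * Y' p = (η₂ : 𝓞 k) * Y' p' := by
      rw [hη₁, hη₂]
      exact congrArg Prod.snd hpp
    have g1 : (η₁ : 𝓞 k) * p.1 = (η₂ : 𝓞 k) * p'.1 := by
      have h9 : β * ((η₁ : 𝓞 k) * p.1) = β * ((η₂ : 𝓞 k) * p'.1) := by
        calc β * ((η₁ : 𝓞 k) * p.1) = (η₁ : 𝓞 k) * (β * p.1) := by ring
          _ = α * ((η₁ : 𝓞 k) * X' p) := by rw [hX' p hp]; ring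
          _ = (η₂ : 𝓞 k) * (α * X' p') := by rw [e1]; ring
          _ = _ := by rw [← hX' p' hp']; ring
      exact mul_left_cancel₀ hβ h9
    have g2 : (η₁ : 𝓞 k) * p.2 = (η₂ : 𝓞 k) * p'.2 := by
      have h9 : β * ((η₁ : 𝓞 k) * p.2) = β * ((η₂ : 𝓞 k) * p'.2) := by
        calc β * ((η₁ : 𝓞 k) * p.2) = (η₁ : 𝓞 k) * (β * p.2) := by ring
          _ = α * ((η₁ : 𝓞 k) * Y' p) := by rw [hY' p hp]; ring
          _ = (η₂ : 𝓞 k) * (α * Y' p') := by rw [e2]; ring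
          _ = _ := by rw [← hY' p' hp']; ring
      exact mul_left_cancel₀ hβ h9
    have h11 : ((η₂⁻¹ : (𝓞 k)ˣ) : 𝓞 k) * (η₂ : 𝓞 k) = 1 := Units.inv_mul _
    have k1 : p'.1 = ((η₂⁻¹ * η₁ : (𝓞 k)ˣ) : 𝓞 k) * p.1 := by
      rw [Units.val_mul, mul_assoc, g1, ← mul_assoc, h11, one_mul]
    have k2 : p'.2 = ((η₂⁻¹ * η₁ : (𝓞 k)ˣ) : 𝓞 k) * p.2 := by
      rw [Units.val_mul, mul_assoc, g2, ← mul_assoc, h11, one_mul]
    have h13 : ∀ v : InfinitePlace k, hk g p'.1 p'.2 v =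
        v (((η₂⁻¹ * η₁ : (𝓞 k)ˣ) : 𝓞 k) : k) ^ 2 * hk g p.1 p.2 v := by
      intro v
      rw [k1, k2, hsc]
    have h12 := Φ.uni _ hp.2.2.1 (η₂⁻¹ * η₁) (by
      have h14 : (fun v : InfinitePlace k => v (((η₂⁻¹ * η₁ : (𝓞 k)ˣ) : 𝓞 k) : k) ^ 2 *
          hk g p.1 p.2 v) = hk g p'.1 p'.2 := by
        funext v
        exact (h13 v).symm
      rw [h14]
      exact hp'.2.2.1)
    have h15 : h' p' = h' p := by
      funext v
      have e3 := hh' p hp v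
      have e4 := hh' p' hp' v
      have e5 := h13 v
      rw [h12 v, one_pow, one_mul] at e5
      rw [e5, e3] at e4
      exact (mul_left_cancel₀ (pow_pos (hvα v) 2).ne' e4).symm
    have h16 : η₁ = η₂ := by rw [hη₁, hη₂, h15]
    rw [h16, inv_mul_cancel, Units.val_one, one_mul] at k1 k2
    exact Prod.ext k1.symm k2.symm
  obtain ⟨hfin', hle'⟩ := hlwt g hg T' hT'0
  have h1 := Set.ncard_le_ncard_of_injOn f hmap hinj hfin'
  have h2 : (S.ncard : ℝ) ≤ A * T' := le_trans (by exact_mod_cast h1) hle'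
  refine h2.trans (le_of_eq ?_)
  rw [hT', div_pow]
  ring

end

end Pool.Agent.LeoC.H94
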