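import Pool.Agent.LeoC.CountStmts

/-!
Module MST of squad LEOC: integers of the cone, and those divisible by the square of a prime.
-/

set_option autoImplicit false

open NumberField NumberField.InfinitePlace NumberField.mixedEmbedding IsDedekindDomain Module
  MeasureTheory

open scoped Classical

namespace Pool.Agent.LeoC.H94

lemma dvd_of_span {R : Type} [CommRing R] (I r : Ideal R) (α β : R)
    (h : Ideal.span {β} * I = Ideal.span {α} * r) (x : R) (hx : x ∈ I) : α ∣ β * x := by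
  have h1 : β * x ∈ Ideal.span {β} * I := Ideal.mul_mem_mul (Ideal.mem_span_singleton_self β) hx
  rw [h] at h1
  have h2 : Ideal.span {α} * r ≤ Ideal.span {α} := Ideal.mul_le_left
  exact Ideal.mem_span_singleton.mp (h2 h1)

lemma dvd_of_span_sq {R : Type} [CommRing R] (I r : Ideal R) (α β : R)
    (h : Ideal.span {β} * I = Ideal.span {α} * r) (x : R) (hx : x ∈ I ^ 2) :
    α ^ 2 ∣ β ^ 2 * x := by
  refine dvd_of_span (I ^ 2) (r ^ 2) (α ^ 2) (β ^ 2) ?_ x hx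
  rw [← Ideal.span_singleton_pow, ← Ideal.span_singleton_pow, ← mul_pow, h, mul_pow]

section

variable {k : Type} [Field k] [NumberField k]

lemma v_mul (v : InfinitePlace k) (x y : 𝓞 k) :
    v ((x * y : 𝓞 k) : k) = v (x : k) * v (y : k) := by
  have h : ((x * y : 𝓞 k) : k) = (x : k) * (y : k) := map_mul (algebraMap (𝓞 k) k) x y
  rw [h, map_mul]

lemma v_pow (v : InfinitePlace k) (x : 𝓞 k) :
    v ((x ^ 2 : 𝓞 k) : k) = v (x : k) ^ 2 := by
  rw [pow_two, v_mul, pow_two]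

lemma v_one (v : InfinitePlace k) : v ((1 : 𝓞 k) : k) = 1 := by
  have h : ((1 : 𝓞 k) : k) = 1 := map_one (algebraMap (𝓞 k) k)
  rw [h, map_one]

/-- the norm of an element -/
noncomputable def nn (x : 𝓞 k) : ℝ := nr (av (mixedEmbedding k (x : k)))

lemma av_apply (hE : EvsStmt) (x : 𝓞 k) (v : InfinitePlace k) :
    av (mixedEmbedding k (x : k)) v = v (x : k) := by
  obtain ⟨-, -, -, -, -, -, -, h, -⟩ := hE k
  exact h _ _

lemma nn_eq (hE : EvsStmt) (x : 𝓞 k) : nn x = ∏ v : InfinitePlace k, v (x : k) ^ v.mult := by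
  unfold nn nr
  refine Finset.prod_congr rfl fun v _ => ?_
  rw [av_apply hE]

lemma nn_mul (hE : EvsStmt) (x y : 𝓞 k) : nn (x * y) = nn x * nn y := by
  rw [nn_eq hE, nn_eq hE, nn_eq hE, ← Finset.prod_mul_distrib]
  refine Finset.prod_congr rfl fun v _ => ?_
  rw [v_mul, mul_pow]

lemma nn_pow (hE : EvsStmt) (x : 𝓞 k) : nn (x ^ 2) = nn x ^ 2 := by
  rw [pow_two, nn_mul hE, pow_two]

lemma one_le_nn (hE : EvsStmt) (x : 𝓞 k) (hx : x ≠ 0) : 1 ≤ nn x := by
  obtain ⟨-, -, -, -, -, -, -, -, h⟩ := hE k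
  exact (h x hx).1

lemma nn_unit (hE : EvsStmt) (η : (𝓞 k)ˣ) : nn (η : 𝓞 k) = 1 := by
  have h1 := one_le_nn hE (η : 𝓞 k) η.ne_zero
  have h2 := one_le_nn hE ((η⁻¹ : (𝓞 k)ˣ) : 𝓞 k) (η⁻¹).ne_zero
  have h3 : nn (η : 𝓞 k) * nn ((η⁻¹ : (𝓞 k)ˣ) : 𝓞 k) = 1 := by
    rw [← nn_mul hE, Units.mul_inv, nn_eq hE]
    refine Finset.prod_eq_one fun v _ => ?_
    rw [v_one, one_pow]
  nlinarith

/-- coordinates as an additive map -/
noncomputable def lamHom (k : Type) [Field k] [NumberField k] : 𝓞 k →+ MS k :=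
  ((mixedEmbedding k).comp (algebraMap (𝓞 k) k)).toAddMonoidHom

lemma lamHom_apply (x : 𝓞 k) : lamHom k x = mixedEmbedding k (x : k) := rfl

lemma np_pos (p : HeightOneSpectrum (𝓞 k)) : 0 < Pool.Agent.LeoK.np p := by
  unfold Pool.Agent.LeoK.np
  have h : Ideal.absNorm p.asIdeal ≠ 0 := by
    rw [Ne, Ideal.absNorm_eq_zero_iff]
    exact p.ne_bot
  exact_mod_cast Nat.pos_of_ne_zero h

lemma av_nonneg (y : MS k) (v : InfinitePlace k) : 0 ≤ av y v := norm_nonneg _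

lemma av_le_norm (y : MS k) (v : InfinitePlace k) : av y v ≤ ‖y‖ := by
  unfold av ev
  split_ifs with h
  · rw [Complex.norm_real]
    exact (norm_le_pi_norm y.1 _).trans (norm_fst_le y)
  · exact (norm_le_pi_norm y.2 _).trans (norm_snd_le y)

lemma norm_le_of_av (y : MS k) (R : ℝ) (hR : 0 ≤ R) (h : ∀ v, av y v ≤ R) : ‖y‖ ≤ R := by
  rw [Prod.norm_def]
  refine max_le ((pi_norm_le_iff_of_nonneg hR).mpr fun w => ?_)
    ((pi_norm_le_iff_of_nonneg hR).mpr fun w => ?_)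
  · have h1 := h w.1
    unfold av ev at h1
    rw [dif_pos w.2, Complex.norm_real] at h1
    exact h1
  · have h1 := h w.1
    unfold av ev at h1
    rw [dif_neg (not_isReal_iff_isComplex.mpr w.2)] at h1
    exact h1

lemma nr_nonneg (x : PS k) (hx : ∀ v, 0 ≤ x v) : 0 ≤ nr x :=
  Finset.prod_nonneg fun v _ => pow_nonneg (hx v) _

lemma nr_le_pow (x : PS k) (hx : ∀ v, 0 ≤ x v) (R : ℝ) (h : ∀ v, x v ≤ R) :
    nr x ≤ R ^ finrank ℚ k := by
  calc nr x ≤ ∏ v : InfinitePlace k, R ^ v.mult := Finset.prod_le_prod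
        (fun v _ => pow_nonneg (hx v) _) (fun v _ => pow_le_pow_left₀ (hx v) (h v) _)
    _ = _ := by rw [Finset.prod_pow_eq_pow_sum, sum_mult_eq]

lemma av_smul (hE : EvsStmt) (t : ℝ) (ht : 0 ≤ t) (y : MS k) : av (t • y) = t • av y := by
  obtain ⟨-, -, h, -, -, -, -, -, -⟩ := hE k
  funext v
  rw [Pi.smul_apply, smul_eq_mul]
  unfold av
  rw [h, norm_mul, Complex.norm_real, Real.norm_of_nonneg ht]

lemma nn_pos (hE : EvsStmt) (x : 𝓞 k) (hx : x ≠ 0) : 0 < nn x := by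
  have := one_le_nn hE x hx
  linarith

/-- all integers of the cone -/
theorem mst1 (hP : Pool.Agent.LeoK.PckStmt) (hC : ConStmt) (hE : EvsStmt) (Φ : CFrame k) :
    ∃ A : ℝ, 0 < A ∧ ∀ Z : ℝ, 0 < Z →
    {m : 𝓞 k | av (mixedEmbedding k (m : k)) ∈ Φ.F ∧
      nr (av (mixedEmbedding k (m : k))) ≤ Z}.Finite ∧
    (({m : 𝓞 k | av (mixedEmbedding k (m : k)) ∈ Φ.F ∧
      nr (av (mixedEmbedding k (m : k))) ≤ Z}.ncard : ℝ) ≤ A * Z) := by
  obtain ⟨-, -, -, -, hnr, hbd⟩ := hC k Φ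
  have hn : 0 < finrank ℚ k := finrank_pos
  have hD : Bornology.IsBounded {y : MS k | av y ∈ Φ.F ∩ {x | nr x ≤ 1}} := by
    obtain ⟨R, hR⟩ := isBounded_iff_forall_norm_le.mp (hbd 1 one_pos).1
    refine isBounded_iff_forall_norm_le.mpr ⟨R, fun y hy => ?_⟩
    have h1 := hR _ hy
    have hR0 : 0 ≤ R := (norm_nonneg _).trans h1
    refine norm_le_of_av y R hR0 fun v => ?_
    have h2 := norm_le_pi_norm (av y) v
    rw [Real.norm_of_nonneg (av_nonneg y v)] at h2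
    exact h2.trans h1
  obtain ⟨A, hA, hpck⟩ := hP (MS k) {y : MS k | av y ∈ Φ.F ∩ {x | nr x ≤ 1}} hD 1 one_pos
  refine ⟨A, hA, fun Z hZ => ?_⟩
  rcases lt_or_ge Z 1 with hZ1 | hZ1
  · have hemp : {m : 𝓞 k | av (mixedEmbedding k (m : k)) ∈ Φ.F ∧
        nr (av (mixedEmbedding k (m : k))) ≤ Z} = ∅ := by
      rw [Set.eq_empty_iff_forall_notMem]
      rintro m ⟨hm, hm'⟩
      have hpos := Φ.pos _ hm
      have hm0 : m ≠ 0 := by
        rintro rfl
        have h1 := hpos (Classical.arbitrary _)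
        rw [av_apply hE] at h1
        simp at h1
      have h1 := one_le_nn hE m hm0
      unfold nn at h1
      linarith
    rw [hemp]
    refine ⟨Set.finite_empty, ?_⟩
    rw [Set.ncard_empty]
    have := mul_pos hA hZ
    simpa using this.le
  · set t : ℝ := Z ^ (1 / (finrank ℚ k : ℝ)) with ht
    have ht1 : 1 ≤ t := Real.one_le_rpow hZ1 (by positivity)
    have htn : t ^ finrank ℚ k = Z := by
      rw [ht, ← Real.rpow_natCast, ← Real.rpow_mul hZ.le, one_div, inv_mul_cancel₀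
        (by exact_mod_cast hn.ne'), Real.rpow_one]
    have ht0 : 0 < t := by linarith
    obtain ⟨hfin, hle⟩ := hpck t ht1 (lamHom k).range (by
      rintro y ⟨x, rfl⟩ hy
      have hx : x ≠ 0 := by
        rintro rfl
        exact hy (map_zero _)
      have h1 := one_le_nn hE x hx
      have h2 := nr_le_pow (av (lamHom k x)) (av_nonneg _) ‖lamHom k x‖ (av_le_norm _)
      have h3 : nn x = nr (av (lamHom k x)) := rfl
      rw [h3] at h1
      have h4 := h1.trans h2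
      by_contra hlt
      push Not at hlt
      exact absurd h4 (not_le.mpr (pow_lt_one₀ (norm_nonneg _) hlt hn.ne')))
    have hmap : ∀ m ∈ {m : 𝓞 k | av (mixedEmbedding k (m : k)) ∈ Φ.F ∧
        nr (av (mixedEmbedding k (m : k))) ≤ Z},
        lamHom k m ∈ {y : MS k | y ∈ (lamHom k).range ∧
          t⁻¹ • y ∈ {y : MS k | av y ∈ Φ.F ∩ {x | nr x ≤ 1}}} := by
      rintro m ⟨hm, hm'⟩
      refine ⟨⟨m, rfl⟩, ?_⟩
      change av (t⁻¹ • lamHom k m) ∈ Φ.F ∩ {x | nr x ≤ 1}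
      rw [av_smul hE _ (inv_nonneg.mpr ht0.le)]
      refine ⟨Φ.scal _ hm _ (inv_pos.mpr ht0), ?_⟩
      change nr (t⁻¹ • av (lamHom k m)) ≤ 1
      rw [hnr, inv_pow, htn, inv_mul_le_iff₀ hZ, mul_one]
      exact hm'
    have hinj : Set.InjOn (lamHom k) {m : 𝓞 k | av (mixedEmbedding k (m : k)) ∈ Φ.F ∧
        nr (av (mixedEmbedding k (m : k))) ≤ Z} := by
      intro x _ y _ hxy
      have h2 : (x : k) = (y : k) := mixedEmbedding_injective k hxy
      exact RingOfIntegers.ext h2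
    refine ⟨Set.Finite.of_injOn hmap hinj hfin, ?_⟩
    have h1 := Set.ncard_le_ncard_of_injOn _ hmap hinj hfin
    rw [mixedEmbedding.finrank, htn] at hle
    exact le_trans (by exact_mod_cast h1) hle

theorem mst (hC : ConStmt) (hR : RepStmt) (hP : Pool.Agent.LeoK.PckStmt) (hE : EvsStmt) :
    MstStmt := by
  intro k _ _ Φ
  classical
  obtain ⟨A, hA, hmst⟩ := mst1 hP hC hE Φ
  obtain ⟨N₀, hN₀, hrep⟩ := hR k
  have hN1 : (1 : ℝ) ≤ N₀ := by exact_mod_cast hN₀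
  refine ⟨A * (N₀ : ℝ) ^ 2, by positivity, fun Z hZ => ⟨(hmst Z hZ).1, ?_, ?_⟩⟩
  · refine (hmst Z hZ).2.trans ?_
    have h1 : (1 : ℝ) ≤ (N₀ : ℝ) ^ 2 := one_le_pow₀ hN1
    have h2 : A * Z * 1 ≤ A * Z * (N₀ : ℝ) ^ 2 := mul_le_mul_of_nonneg_left h1 (by positivity)
    nlinarith
  · intro p
    obtain ⟨r, α, β, hα, hβ, -, hspan, hnorm, -⟩ := hrep p.asIdeal p.ne_bot
    have hnp := np_pos p
    have hpα : 0 < nn α := nn_pos hE α hα
    have hpβ : 0 < nn β := nn_pos hE β hβ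
    set Z' : ℝ := ((N₀ : ℝ) / Pool.Agent.LeoK.np p) ^ 2 * Z with hZ'
    have hZ'0 : 0 < Z' := by
      have : (0 : ℝ) < N₀ := by linarith
      positivity
    choose! u hu using Φ.exi
    -- the map
    have hex : ∀ m : 𝓞 k, m ∈ p.asIdeal ^ 2 → ∃ m' : 𝓞 k, β ^ 2 * m = α ^ 2 * m' :=
      fun m hm => dvd_of_span_sq p.asIdeal r α β hspan m hm
    choose! m' hm' using hex
    let a' : 𝓞 k → PS k := fun m => av (mixedEmbedding k ((m' m : 𝓞 k) : k))
    let f : 𝓞 k → 𝓞 k := fun m => (u (a' m) : 𝓞 k) ^ 2 * m' m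
    have hvα : ∀ v : InfinitePlace k, 0 < v (α : k) := fun v =>
      v.pos_iff.mpr (by exact_mod_cast hα)
    have hvβ : ∀ v : InfinitePlace k, 0 < v (β : k) := fun v =>
      v.pos_iff.mpr (by exact_mod_cast hβ)
    have hav : ∀ m ∈ p.asIdeal ^ 2, ∀ v : InfinitePlace k,
        v (β : k) ^ 2 * v (m : k) = v (α : k) ^ 2 * a' m v := by
      intro m hm v
      have h1 := congrArg (fun x : 𝓞 k => v (x : k)) (hm' m hm)
      simp only [v_mul, v_pow] at h1
      rw [h1]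
      simp only [a']
      rw [av_apply hE]
    have ha'pos : ∀ m ∈ p.asIdeal ^ 2, av (mixedEmbedding k (m : k)) ∈ Φ.F →
        ∀ v, 0 < a' m v := by
      intro m hm hmF v
      have h2 := Φ.pos _ hmF v
      rw [av_apply hE] at h2
      have h3 : 0 < v (β : k) ^ 2 * v (m : k) := mul_pos (pow_pos (hvβ v) 2) h2
      rw [hav m hm v] at h3
      exact (mul_pos_iff_of_pos_left (pow_pos (hvα v) 2)).mp h3
    have hfav : ∀ m : 𝓞 k, av (mixedEmbedding k ((f m : 𝓞 k) : k)) =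
        fun v => v ((u (a' m) : 𝓞 k) : k) ^ 2 * a' m v := by
      intro m
      funext v
      rw [av_apply hE]
      simp only [f, a']
      rw [av_apply hE, v_mul, v_pow]
    have hmap : ∀ m ∈ {m : 𝓞 k | m ∈ p.asIdeal ^ 2 ∧ av (mixedEmbedding k (m : k)) ∈ Φ.F ∧
        nr (av (mixedEmbedding k (m : k))) ≤ Z},
        f m ∈ {m : 𝓞 k | av (mixedEmbedding k (m : k)) ∈ Φ.F ∧
          nr (av (mixedEmbedding k (m : k))) ≤ Z'} := by
      rintro m ⟨h1, h2, h3⟩
      refine ⟨?_, ?_⟩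
      · rw [hfav]
        exact hu _ (ha'pos m h1 h2)
      have h6 : nn α ^ 2 * nn (f m) = nn β ^ 2 * nn m := by
        have h7 : nn (f m) = nn (m' m) := by
          simp only [f]
          rw [nn_mul hE, nn_pow hE, nn_unit hE, one_pow, one_mul]
        rw [h7, ← nn_pow hE, ← nn_pow hE, ← nn_mul hE, ← nn_mul hE, hm' m h1]
      have h10 : Pool.Agent.LeoK.np p * nn β ≤ N₀ * nn α := hnorm
      have h11 : (Pool.Agent.LeoK.np p * nn β) ^ 2 ≤ (N₀ * nn α) ^ 2 :=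
        pow_le_pow_left₀ (by positivity) h10 2
      have h3' : nn m ≤ Z := h3
      have h12 : nn (f m) ≤ Z' := by
        set a := nn α with ha
        set b := nn β with hb
        set x := nn (f m) with hx
        have h13 : a ^ 2 * x ≤ b ^ 2 * Z := by
          rw [h6]
          exact mul_le_mul_of_nonneg_left h3' (by positivity)
        have h14 : Pool.Agent.LeoK.np p ^ 2 * (a ^ 2 * x) ≤ (N₀ : ℝ) ^ 2 * a ^ 2 * Z := by
          calc Pool.Agent.LeoK.np p ^ 2 * (a ^ 2 * x)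
              ≤ Pool.Agent.LeoK.np p ^ 2 * (b ^ 2 * Z) :=
                mul_le_mul_of_nonneg_left h13 (by positivity)
            _ = (Pool.Agent.LeoK.np p * b) ^ 2 * Z := by ring
            _ ≤ (N₀ * a) ^ 2 * Z := mul_le_mul_of_nonneg_right h11 hZ.le
            _ = _ := by ring
        have h15 : a ^ 2 * (Pool.Agent.LeoK.np p ^ 2 * x) ≤ a ^ 2 * ((N₀ : ℝ) ^ 2 * Z) := by
          linarith
        have h16 : Pool.Agent.LeoK.np p ^ 2 * x ≤ (N₀ : ℝ) ^ 2 * Z :=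
          le_of_mul_le_mul_left h15 (by positivity)
        rw [hZ', div_pow, div_mul_eq_mul_div, le_div_iff₀ (by positivity)]
        linarith
      exact h12
    have hinj : Set.InjOn f {m : 𝓞 k | m ∈ p.asIdeal ^ 2 ∧
        av (mixedEmbedding k (m : k)) ∈ Φ.F ∧ nr (av (mixedEmbedding k (m : k))) ≤ Z} := by
      rintro m ⟨h1, h2, -⟩ n ⟨h3, h4, -⟩ hmn
      have h5 := hm' m h1
      have h6 := hm' n h3
      obtain ⟨η₁, hη₁⟩ : ∃ η, η = u (a' m) := ⟨_, rfl⟩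
      obtain ⟨η₂, hη₂⟩ : ∃ η, η = u (a' n) := ⟨_, rfl⟩
      have h7 : (η₁ : 𝓞 k) ^ 2 * m' m = (η₂ : 𝓞 k) ^ 2 * m' n := by
        rw [hη₁, hη₂]
        exact hmn
      have h8 : (η₁ : 𝓞 k) ^ 2 * m = (η₂ : 𝓞 k) ^ 2 * n := by
        have h9 : β ^ 2 * ((η₁ : 𝓞 k) ^ 2 * m) = β ^ 2 * ((η₂ : 𝓞 k) ^ 2 * n) := by
          calc β ^ 2 * ((η₁ : 𝓞 k) ^ 2 * m) = (η₁ : 𝓞 k) ^ 2 * (β ^ 2 * m) := by ring
            _ = α ^ 2 * ((η₁ : 𝓞 k) ^ 2 * m' m) := by rw [h5]; ring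
            _ = (η₂ : 𝓞 k) ^ 2 * (α ^ 2 * m' n) := by rw [h7]; ring
            _ = _ := by rw [← h6]; ring
        exact mul_left_cancel₀ (pow_ne_zero 2 hβ) h9
      have h10 : n = ((η₂⁻¹ * η₁ : (𝓞 k)ˣ) : 𝓞 k) ^ 2 * m := by
        have h11 : ((η₂⁻¹ : (𝓞 k)ˣ) : 𝓞 k) * (η₂ : 𝓞 k) = 1 := Units.inv_mul _
        rw [Units.val_mul, mul_pow, mul_assoc, h8, ← mul_assoc, ← mul_pow, h11, one_pow, one_mul]
      have h13 : ∀ v : InfinitePlace k, av (mixedEmbedding k (n : k)) v =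
          v (((η₂⁻¹ * η₁ : (𝓞 k)ˣ) : 𝓞 k) : k) ^ 2 * av (mixedEmbedding k (m : k)) v := by
        intro v
        rw [av_apply hE, av_apply hE]
        conv_lhs => rw [h10]
        rw [v_mul, v_pow]
      have h12 := Φ.uni _ h2 (η₂⁻¹ * η₁) (by
        have h14 : (fun v : InfinitePlace k => v (((η₂⁻¹ * η₁ : (𝓞 k)ˣ) : 𝓞 k) : k) ^ 2 *
            av (mixedEmbedding k (m : k)) v) = av (mixedEmbedding k (n : k)) := by
          funext v
          exact (h13 v).symm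
        rw [h14]
        exact h4)
      have h15 : a' n = a' m := by
        funext v
        have e1 := hav m h1 v
        have e2 := hav n h3 v
        have e3 := h13 v
        rw [h12 v, one_pow, one_mul, av_apply hE, av_apply hE] at e3
        rw [e3, e1] at e2
        exact (mul_left_cancel₀ (pow_pos (hvα v) 2).ne' e2).symm
      have h16 : η₁ = η₂ := by rw [hη₁, hη₂, h15]
      rw [h16, inv_mul_cancel, Units.val_one, one_pow, one_mul] at h10
      exact h10.symm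
    have hfin := (hmst Z' hZ'0).1
    have h1 := Set.ncard_le_ncard_of_injOn f hmap hinj hfin
    have h2 : (({m : 𝓞 k | m ∈ p.asIdeal ^ 2 ∧ av (mixedEmbedding k (m : k)) ∈ Φ.F ∧
        nr (av (mixedEmbedding k (m : k))) ≤ Z}.ncard : ℝ)) ≤ A * Z' :=
      le_trans (by exact_mod_cast h1) (hmst Z' hZ'0).2
    refine h2.trans (le_of_eq ?_)
    rw [hZ', div_pow]
    ring

end

end Pool.Agent.LeoC.H94
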